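import Mathlib

set_option autoImplicit false

open scoped Topology
open Filter Set Real

namespace Pool.Agent.Results.MP_5ce401_an.NoM

/-- `x` solves `x' + a x(h) = 0` on `[t₀, ∞)` with continuous bounded initial function. -/
def IsSol (t₀ : ℝ) (a h x : ℝ → ℝ) : Prop :=
  ContinuousOn x (Iic t₀) ∧ (∃ C, ∀ t ≤ t₀, |x t| ≤ C) ∧
    ∀ t, t₀ ≤ t → HasDerivWithinAt x (-(a t * x (h t))) (Ici t₀) t

/-- Asymptotic stability. -/
def AS (t₀ : ℝ) (a h : ℝ → ℝ) : Prop :=
  (∀ ε > 0, ∃ δ > 0, ∀ x, IsSol t₀ a h x → (∀ t ≤ t₀, |x t| ≤ δ) → ∀ t, t₀ ≤ t → |x t| < ε) ∧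
    ∀ x, IsSol t₀ a h x → Tendsto x atTop (𝓝 0)

noncomputable def aa (e s : ℝ) : ℝ := -cos s * exp (sin s - sin (s + e))

lemma aa_cont (e : ℝ) : Continuous (aa e) := by unfold aa; fun_prop

lemma sin_lip (s e : ℝ) (he : 0 ≤ e) : |sin s - sin (s + e)| ≤ e := by
  have := abs_sin_sub_sin_le s (s + e)
  rwa [show s - (s + e) = -e by ring, abs_neg, abs_of_nonneg he] at this

lemma aa_est (e s : ℝ) (h0 : 0 < e) (h1 : e ≤ 1 / 10) :
    |aa e s - (-cos s + e * cos s ^ 2)| ≤ 2 * e ^ 2 := by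
  set y := sin s - sin (s + e) with hy
  have y1 : |y| ≤ e := sin_lip s e h0.le
  have y2 : |exp y - 1 - y| ≤ e ^ 2 := by
    refine (abs_exp_sub_one_sub_id_le (by linarith)).trans ?_
    rw [← sq_abs]
    exact pow_le_pow_left₀ (abs_nonneg _) y1 2
  have y3 : |y + e * cos s| ≤ e ^ 2 := by
    have e1 : y + e * cos s = sin s * (1 - cos e) + cos s * (e - sin e) := by
      rw [hy, sin_add]; ring
    have c1 := one_sub_sq_div_two_le_cos (x := e)
    have c2 := cos_le_one e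
    have c3 := sin_le h0.le
    have c4 := sin_gt_sub_cube h0
    have d1 : |sin s * (1 - cos e)| ≤ e ^ 2 / 2 := by
      rw [abs_mul, abs_of_nonneg (by linarith : 0 ≤ 1 - cos e)]
      nlinarith [abs_sin_le_one s, abs_nonneg (sin s)]
    have d2 : |cos s * (e - sin e)| ≤ e ^ 2 / 2 := by
      rw [abs_mul, abs_of_nonneg (by linarith : 0 ≤ e - sin e)]
      have : e ^ 3 ≤ e ^ 2 := by nlinarith [sq_nonneg e]
      nlinarith [abs_cos_le_one s, abs_nonneg (cos s)]
    rw [e1]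
    exact (abs_add_le _ _).trans (by linarith)
  have e2 : aa e s - (-cos s + e * cos s ^ 2) = -cos s * ((exp y - 1 - y) + (y + e * cos s)) := by
    unfold aa; ring
  rw [e2, abs_mul, abs_neg]
  have := (abs_add_le (exp y - 1 - y) (y + e * cos s)).trans (add_le_add y2 y3)
  nlinarith [abs_cos_le_one s, abs_nonneg (cos s), abs_nonneg (exp y - 1 - y + (y + e * cos s))]

lemma int_est (e t : ℝ) (h0 : 0 < e) (h1 : e ≤ 1 / 10) :
    e / 2 ≤ ∫ s in (t - 2 * π + e)..t, aa e s ∧ ∫ s in (t - 2 * π + e)..t, aa e s ≤ 6 * e := by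
  have hG : ∀ s, HasDerivAt (fun s => -sin s + e * (s / 2 + sin (2 * s) / 4))
      (-cos s + e * cos s ^ 2) s := by
    intro s
    have a1 := ((hasDerivAt_id s).const_mul 2).sin
    have := (hasDerivAt_sin s).neg.add
      ((((hasDerivAt_id s).div_const 2).add (a1.div_const 4)).const_mul e)
    refine this.congr_deriv ?_
    simp only [id, cos_two_mul]
    ring
  have hc : Continuous fun s => -cos s + e * cos s ^ 2 := by fun_prop
  have i1 := intervalIntegral.integral_eq_sub_of_hasDerivAt (a := t - 2 * π + e) (b := t)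
    (fun s _ => hG s) (hc.intervalIntegrable _ _)
  have i2 := intervalIntegral.norm_integral_le_of_norm_le_const (a := t - 2 * π + e) (b := t)
    (f := fun s => aa e s - (-cos s + e * cos s ^ 2)) (C := 2 * e ^ 2)
    (fun s _ => aa_est e s h0 h1)
  rw [intervalIntegral.integral_sub ((aa_cont e).intervalIntegrable _ _)
    (hc.intervalIntegrable _ _), i1, Real.norm_eq_abs] at i2
  have p1 := pi_gt_three
  have p2 := pi_lt_d2
  rw [show t - (t - 2 * π + e) = 2 * π - e by ring,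
    abs_of_nonneg (by linarith : 0 ≤ 2 * π - e)] at i2
  have s1 : sin (t - 2 * π + e) = sin (t + e) := by
    rw [show t - 2 * π + e = t + e - 2 * π by ring, sin_sub_two_pi]
  have s2 : sin (2 * (t - 2 * π + e)) = sin (2 * t + 2 * e) := by
    rw [show 2 * (t - 2 * π + e) = 2 * t + 2 * e - 2 * π - 2 * π by ring, sin_sub_two_pi,
      sin_sub_two_pi]
  rw [s1, s2] at i2
  have b1 := abs_le.1 (sin_lip t e h0.le)
  have b2 := abs_le.1 (sin_lip (2 * t) (2 * e) (by linarith))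
  have i3 := abs_le.1 i2
  have q1 : e * (sin (2 * t) - sin (2 * t + 2 * e)) ≤ e * (2 * e) :=
    mul_le_mul_of_nonneg_left b2.2 h0.le
  have q2 : e * (-(2 * e)) ≤ e * (sin (2 * t) - sin (2 * t + 2 * e)) :=
    mul_le_mul_of_nonneg_left b2.1 h0.le
  have q3 : 2 * e ^ 2 * (2 * π - e) ≤ 14 * e ^ 2 := by nlinarith [sq_nonneg e]
  have q4 : e ^ 2 ≤ e / 10 := by nlinarith
  have q5 : 3 * e ≤ e * π := by nlinarith
  have q6 : e * π ≤ 3.15 * e := by nlinarith
  constructor <;> nlinarith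

theorem result (M : ℝ) (hM : 0 < M) (t₀ : ℝ) : ∃ a h : ℝ → ℝ, Continuous a ∧ Continuous h ∧
    Tendsto h atTop atTop ∧ (∃ A τ : ℝ, ∀ t, |a t| ≤ A ∧ 0 ≤ t - h t ∧ t - h t ≤ τ) ∧
    (∃ m M' : ℝ, 0 < m ∧ M' < M ∧
      ∀ t, m ≤ ∫ ζ in h t..t, a ζ ∧ ∫ ζ in h t..t, a ζ ≤ M') ∧ ¬ AS t₀ a h := by
  set e := min (1 / 10) (M / 10) with he
  have h0 : 0 < e := lt_min (by norm_num) (by linarith)
  have h1 : e ≤ 1 / 10 := min_le_left _ _
  have h2 : e ≤ M / 10 := min_le_right _ _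
  have p1 := pi_gt_three
  refine ⟨aa e, fun t => t - 2 * π + e, aa_cont e, by fun_prop, ?_, ⟨2, 2 * π, fun t => ?_⟩,
    ⟨e / 2, 6 * e, by linarith, by linarith, fun t => int_est e t h0 h1⟩, fun hAS => ?_⟩
  · exact tendsto_atTop_add_const_right _ _ (tendsto_atTop_add_const_right _ _ tendsto_id)
  · refine ⟨?_, by linarith, by linarith⟩
    have a1 := abs_le.1 (aa_est e t h0 h1)
    have a2 := abs_le.1 (abs_cos_le_one t)
    have a3 := cos_sq_le_one t
    have a4 : e * cos t ^ 2 ≤ e := by nlinarith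
    have a5 : 0 ≤ e * cos t ^ 2 := by positivity
    rw [abs_le]
    constructor <;> nlinarith
  · have hx := hAS.2 (fun t => exp (sin t)) ⟨by fun_prop, ⟨exp 1, fun t _ => by
      rw [abs_of_pos (exp_pos _)]; exact exp_le_exp.2 (sin_le_one t)⟩, fun t _ => by
      have := (hasDerivAt_sin t).exp
      refine HasDerivAt.hasDerivWithinAt (this.congr_deriv ?_)
      have s1 : sin (t - 2 * π + e) = sin (t + e) := by
        rw [show t - 2 * π + e = t + e - 2 * π by ring, sin_sub_two_pi]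
      unfold aa
      beta_reduce
      rw [s1, mul_assoc, ← exp_add]
      simp only [sub_add_cancel]
      ring⟩
    have h3 : exp (-1) ≤ 0 := ge_of_tendsto' hx fun t => exp_le_exp.2 (neg_one_le_sin t)
    exact absurd h3 (not_le.2 (exp_pos _))

end Pool.Agent.Results.MP_5ce401_an.NoM
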